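import Pool.Agent.helper32.EX.SpecD

/-!
# Project ex, row MXR: a monomial element over `w` maps `X_β` to `X_{wβ}`
-/

set_option autoImplicit false

namespace Pool.Agent.EX

theorem MXR (hXRM : XRM_stmt) (hMCJ : MCJ_stmt) : MXR_stmt := by
  intro n C hC F _ m w hm β
  obtain ⟨X1, X2, -, -⟩ := hXRM C F
  obtain ⟨c, hc, hct⟩ := hMCJ C F (m : LV C F ≃ₗ[F] LV C F) w m.2 hm β
  have key : ∀ t : F, m * xg β t * m⁻¹ = xg (w β) (c * t) := fun t => Subtype.ext (hct t)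
  ext s
  rw [X2, X1]
  constructor
  · rintro ⟨a, ha, rfl⟩
    obtain ⟨t, rfl⟩ := (X1 β a).1 ha
    exact ⟨c * t, key t⟩
  · rintro ⟨t, rfl⟩
    refine ⟨xg β (c⁻¹ * t), (X1 β _).2 ⟨_, rfl⟩, ?_⟩
    rw [key, mul_inv_cancel_left₀ hc]

end Pool.Agent.EX
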