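import Pool.Agent.helper32.EX.SpecA

/-!
# Project ex, row NEG: `x_{-α}(s) = x_α(-s⁻¹) n_α(s⁻¹) x_α(-s⁻¹)`
-/

set_option autoImplicit false

namespace Pool.Agent.EX

theorem NEG : NEG_stmt := by
  intro n C hC F _ α s hs
  rw [nn, inv_inv, xl_neg]
  group

end Pool.Agent.EX
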